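import Mathlib

/-! First passage percolation in a hostile environment on a graph. -/

set_option autoImplicit false

open MeasureTheory ProbabilityTheory

namespace Pool.Agent.H973Z.FPP

/-- The Bernoulli law on `Bool` giving mass `mu` to `true`. -/
noncomputable def bern (mu : ℝ) : Measure Bool :=
  ENNReal.ofReal mu • Measure.dirac true + ENNReal.ofReal (1 - mu) • Measure.dirac false

/-- A configuration: a seed indicator for each vertex and two passage times for each unordered
pair of vertices (the first for type `FPP_1`, the second for type `FPP_lam`). -/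
abbrev Config (V : Type) : Type := (V → Bool) × (Sym2 V → ℝ × ℝ)

/-- The law of the configuration: independent Bernoulli seeds and independent exponential
passage times of rates `1` and `lam`. -/
noncomputable def law (V : Type) (lam mu : ℝ) : Measure (Config V) :=
  (Measure.infinitePi fun _ : V => bern mu).prod
    (Measure.infinitePi fun _ : Sym2 V => (expMeasure 1).prod (expMeasure lam))

/-- The passage time of the edge `u v` for a type (`false` is `FPP_1`, `true` is `FPP_lam`). -/
def pass {V : Type} (ω : Config V) (ty : Bool) (u v : V) : ℝ :=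
  if ty then (ω.2 s(u, v)).2 else (ω.2 s(u, v)).1

/-- The process listed occupation by occupation: `vtx n` is the `n`-th vertex to be occupied,
at time `time n`, by type `typ n` (`false` is `FPP_1`, `true` is `FPP_lam`). -/
structure Evolution {V : Type} (G : SimpleGraph V) (o : V) (ω : Config V)
    (vtx : ℕ → V) (time : ℕ → ℝ) (typ : ℕ → Bool) : Prop where
  start : vtx 0 = o ∧ time 0 = 0 ∧ typ 0 = false
  step : ∀ n, 0 < n → (∀ j, j < n → vtx j ≠ vtx n) ∧ ∃ i, i < n ∧ G.Adj (vtx i) (vtx n) ∧
    time n = time i + pass ω (typ i) (vtx i) (vtx n) ∧ typ n = (ω.1 (vtx n) || typ i)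
  first : ∀ n, 0 < n → ∀ i, i < n → ∀ y, G.Adj (vtx i) y → (∀ j, j < n → vtx j ≠ y) →
    time n ≤ time i + pass ω (typ i) (vtx i) y

/-- The vertex set `A` contains an infinite connected subset. -/
def Survives {V : Type} (G : SimpleGraph V) (A : Set V) : Prop :=
  ∃ S : Set V, S ⊆ A ∧ S.Infinite ∧ (G.induce S).Connected

/-- Balls around `o` are finite with `|B(o,n)| ≤ C n^D` for all `n ≥ 1`. -/
def PolyGrowth {V : Type} (G : SimpleGraph V) (o : V) : Prop :=
  ∃ C D : ℕ, ∀ n : ℕ, 1 ≤ n →
    {v | G.edist o v ≤ n}.Finite ∧ {v | G.edist o v ≤ n}.ncard ≤ C * n ^ D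

/-- The `d`-dimensional isoperimetric inequality `|∂S| ≥ c |S|^((d-1)/d)` for finite `S`, with
`∂S` the set of vertices of `S` having a neighbour outside `S`. -/
def Isoperimetric {V : Type} (G : SimpleGraph V) (d : ℝ) : Prop :=
  ∃ c : ℝ, 0 < c ∧ ∀ S : Finset V,
    c * (S.card : ℝ) ^ ((d - 1) / d) ≤ ({v | v ∈ S ∧ ∃ w, w ∉ S ∧ G.Adj v w}.ncard : ℝ)

/-- After removing any finite set, all but finitely many vertices lie in one connected piece. -/
def OneEnded {V : Type} (G : SimpleGraph V) : Prop :=
  ∀ K : Finset V, ∃ W : Set V, Wᶜ.Finite ∧ (∀ v ∈ K, v ∉ W) ∧ (G.induce W).Connected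

end Pool.Agent.H973Z.FPP
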