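import Mathlib
import Pool.Agent.H973Z.FPP.Defs

set_option autoImplicit false

open Filter

namespace Pool.Agent.H973Z.FPP

lemma exists_seq_rec {X : Type} (x0 : X) (P : ℕ → (ℕ → X) → X → Prop)
    (hloc : ∀ n f g x, (∀ i, i < n → f i = g i) → P n f x → P n g x)
    (hex : ∀ n f, (∀ m, m < n → P m f (f m)) → ∃ x, P n f x) :
    ∃ f : ℕ → X, ∀ n, P n f (f n) := by
  classical
  let nx : ℕ → (ℕ → X) → X := fun n f => if h : ∃ x, P n f x then h.choose else x0
  let g : ℕ → ℕ → X := fun n => Nat.rec (fun _ => x0) (fun n f => Function.update f n (nx n f)) n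
  have gs : ∀ n, g (n + 1) = Function.update (g n) n (nx n (g n)) := fun n => rfl
  let f : ℕ → X := fun n => g (n + 1) n
  have hfg : ∀ n i, i < n → g n i = f i := by
    intro n
    induction n with
    | zero => intro i hi; omega
    | succ n ih =>
      intro i hi
      rcases Nat.lt_or_ge i n with h | h
      · rw [gs, Function.update_of_ne h.ne, ih i h]
      · obtain rfl : i = n := by omega
        rfl
  refine ⟨f, fun n => ?_⟩
  induction n using Nat.strong_induction_on with
  | _ n ih =>
    obtain ⟨x, hx⟩ := hex n f ih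
    have h1 : ∃ x, P n (g n) x := ⟨x, hloc n f (g n) x (fun i hi => (hfg n i hi).symm) hx⟩
    have h2 : f n = h1.choose := by
      show g (n + 1) n = _
      rw [gs, Function.update_self]
      simp only [nx, dif_pos h1]
    rw [h2]
    exact hloc n (g n) f _ (fun i hi => hfg n i hi) h1.choose_spec

variable {V : Type} {G : SimpleGraph V} {o : V} {ω : Config V}

lemma exists_evolution [Infinite V] (hc : G.Connected) (hf : ∀ v, (G.neighborSet v).Finite)
    (o : V) (ω : Config V) : ∃ vtx time typ, Evolution G o ω vtx time typ := by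
  classical
  let P : ℕ → (ℕ → V × ℝ × Bool) → V × ℝ × Bool → Prop := fun n f x =>
    (n = 0 → x = (o, 0, false)) ∧ (0 < n →
      ((∀ j, j < n → (f j).1 ≠ x.1) ∧ ∃ i, i < n ∧ G.Adj (f i).1 x.1 ∧
        x.2.1 = (f i).2.1 + pass ω (f i).2.2 (f i).1 x.1 ∧ x.2.2 = (ω.1 x.1 || (f i).2.2)) ∧
      ∀ i, i < n → ∀ y, G.Adj (f i).1 y → (∀ j, j < n → (f j).1 ≠ y) →
        x.2.1 ≤ (f i).2.1 + pass ω (f i).2.2 (f i).1 y)
  obtain ⟨f, hP⟩ := exists_seq_rec (o, (0 : ℝ), false) P (by
    intro n f g x hfg h
    refine ⟨h.1, fun hn => ?_⟩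
    obtain ⟨⟨a, i, hi, b⟩, c⟩ := h.2 hn
    refine ⟨⟨fun j hj => hfg j hj ▸ a j hj, i, hi, hfg i hi ▸ b⟩, ?_⟩
    intro i hi y hy hj
    rw [← hfg i hi] at hy ⊢
    exact c i hi y hy (fun j h => by rw [hfg j h]; exact hj j h)) (by
    intro n f hf'
    rcases Nat.eq_zero_or_pos n with rfl | hn
    · exact ⟨(o, 0, false), fun _ => rfl, fun h => absurd h (lt_irrefl _)⟩
    · have h0 : f 0 = (o, 0, false) := (hf' 0 hn).1 rfl
      let T : Set (ℕ × V) := {q | q.1 < n ∧ G.Adj (f q.1).1 q.2 ∧ ∀ j, j < n → (f j).1 ≠ q.2}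
      have hT : T.Finite := by
        have : T ⊆ ⋃ i ∈ Set.Iio n, (fun y => (i, y)) '' G.neighborSet (f i).1 := by
          rintro ⟨i, y⟩ ⟨a, b, -⟩
          simp only [Set.mem_iUnion]
          exact ⟨i, a, y, b, rfl⟩
        exact ((Set.finite_Iio n).biUnion (fun i _ => (hf _).image _)).subset this
      have hne : T.Nonempty := by
        let A : Set V := (fun j => (f j).1) '' Set.Iio n
        have hA : A.Finite := (Set.finite_Iio n).image _
        obtain ⟨z, hz⟩ := hA.infinite_compl.nonempty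
        obtain ⟨p⟩ := hc.preconnected o z
        have ho : o ∈ A := ⟨0, hn, by simp [h0]⟩
        obtain ⟨d, -, d1, d2⟩ := p.exists_boundary_dart A ho hz
        obtain ⟨i, hi, e⟩ := d1
        refine ⟨(i, d.toProd.2), hi, ?_, fun j hj e' => d2 ⟨j, hj, e'⟩⟩
        have := d.adj
        simp only at e ⊢
        rw [e]; exact this
      obtain ⟨⟨i, y⟩, ⟨a, b, c⟩, hmin⟩ := Set.exists_min_image T
        (fun q => (f q.1).2.1 + pass ω (f q.1).2.2 (f q.1).1 q.2) hT hne
      refine ⟨(y, (f i).2.1 + pass ω (f i).2.2 (f i).1 y, (ω.1 y || (f i).2.2)),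
        fun h => absurd h hn.ne', fun _ => ⟨⟨c, i, a, b, rfl, rfl⟩, ?_⟩⟩
      intro i' hi' y' hy' hj
      exact hmin (i', y') ⟨hi', hy', hj⟩)
  refine ⟨fun n => (f n).1, fun n => (f n).2.1, fun n => (f n).2.2, ?_, ?_, ?_⟩
  · have := (hP 0).1 rfl
    simp [this]
  · intro n hn; exact ((hP n).2 hn).1
  · intro n hn; exact ((hP n).2 hn).2

/-- subgraph of fast edges -/
def fastG (G : SimpleGraph V) (fast : Sym2 V → Prop) : SimpleGraph V where
  Adj u v := G.Adj u v ∧ fast s(u, v)
  symm := ⟨fun u v h => ⟨h.1.symm, by rw [Sym2.eq_swap]; exact h.2⟩⟩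
  loopless := ⟨fun u h => h.1.ne rfl⟩

variable {vtx : ℕ → V} {time : ℕ → ℝ} {typ : ℕ → Bool}

lemma Evolution.inj (h : Evolution G o ω vtx time typ) : Function.Injective vtx := by
  intro a b e
  rcases lt_trichotomy a b with l | l | l
  · exact absurd e ((h.step b (by omega)).1 a l)
  · exact l
  · exact absurd e.symm ((h.step a (by omega)).1 b l)

lemma Evolution.tendsto (h : Evolution G o ω vtx time typ) (hf : ∀ v, (G.neighborSet v).Finite)
    {δ : ℝ} (hδ : 0 < δ) (fast : Sym2 V → Prop)
    (hpos : ∀ ty u v, 0 ≤ pass ω ty u v) (hslow : ∀ ty u v, ¬ fast s(u, v) → δ ≤ pass ω ty u v)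
    (hcl : ∀ v, {w | (fastG G fast).Reachable v w}.Finite) : Tendsto time atTop atTop := by
  let R : ℕ → Set V := fun m => Nat.rec {w | (fastG G fast).Reachable o w}
    (fun _ A => A ∪ ⋃ u ∈ A, ⋃ v ∈ G.neighborSet u, {w | (fastG G fast).Reachable v w}) m
  have R0 : R 0 = {w | (fastG G fast).Reachable o w} := rfl
  have Rs : ∀ m, R (m + 1) =
      R m ∪ ⋃ u ∈ R m, ⋃ v ∈ G.neighborSet u, {w | (fastG G fast).Reachable v w} := fun m => rfl
  have Rfin : ∀ m, (R m).Finite := by
    intro m
    induction m with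
    | zero => exact hcl o
    | succ m ih => exact ih.union (ih.biUnion fun u _ => (hf u).biUnion fun v _ => hcl v)
  have Rcl : ∀ m u v, u ∈ R m → (fastG G fast).Adj u v → v ∈ R m := by
    intro m
    induction m with
    | zero => intro u v hu huv; exact SimpleGraph.Reachable.trans hu huv.reachable
    | succ m ih =>
      intro u v hu huv
      rw [Rs] at hu ⊢
      rcases hu with hu | hu
      · exact Or.inl (ih u v hu huv)
      · right
        simp only [Set.mem_iUnion] at hu ⊢
        obtain ⟨a, ha, b, hb, hc⟩ := hu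
        exact ⟨a, ha, b, hb, SimpleGraph.Reachable.trans hc huv.reachable⟩
  have Ro : ∀ m, o ∈ R m := by
    intro m
    induction m with
    | zero => exact SimpleGraph.Reachable.refl o
    | succ m ih => exact Or.inl ih
  have t0 : ∀ n, 0 ≤ time n := by
    intro n
    induction n using Nat.strong_induction_on with
    | _ n ih =>
      rcases Nat.eq_zero_or_pos n with rfl | hn
      · exact h.start.2.1.ge
      · obtain ⟨-, i, hi, -, e, -⟩ := h.step n hn
        rw [e]; exact add_nonneg (ih i hi) (hpos _ _ _)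
  have key : ∀ n (m : ℕ), time n < (m + 1) * δ → vtx n ∈ R m := by
    intro n
    induction n using Nat.strong_induction_on with
    | _ n ih =>
      intro m hm
      rcases Nat.eq_zero_or_pos n with rfl | hn
      · rw [h.start.1]; exact Ro m
      · obtain ⟨-, i, hi, a, e, -⟩ := h.step n hn
        by_cases hfa : fast s(vtx i, vtx n)
        · have := hpos (typ i) (vtx i) (vtx n)
          exact Rcl m _ _ (ih i hi m (by linarith)) ⟨a, hfa⟩
        · have h1 := hslow (typ i) _ _ hfa
          have h2 := t0 i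
          cases m with
          | zero => exfalso; simp at hm; linarith
          | succ m =>
            have h3 := ih i hi m (by push_cast at hm; linarith)
            rw [Rs]
            right
            simp only [Set.mem_iUnion]
            exact ⟨vtx i, h3, vtx n, a, SimpleGraph.Reachable.refl _⟩
  rw [tendsto_atTop]
  intro b
  obtain ⟨m, hm⟩ := exists_nat_ge (b / δ)
  have hfin : {n | ¬ b ≤ time n}.Finite := by
    refine ((Rfin m).preimage h.inj.injOn).subset ?_
    intro n hn
    apply key n m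
    have h1 : time n < b := not_le.mp hn
    rw [div_le_iff₀ hδ] at hm
    nlinarith
  rw [← Nat.cofinite_eq_atTop]
  exact hfin

lemma Evolution.surj (h : Evolution G o ω vtx time typ) (hc : G.Connected)
    (ht : Tendsto time atTop atTop) (v : V) : ∃ n, vtx n = v := by
  by_contra hv
  obtain ⟨p⟩ := hc.preconnected o v
  obtain ⟨d, -, ⟨i, e⟩, d2⟩ := p.exists_boundary_dart (Set.range vtx) ⟨0, h.start.1⟩ hv
  have ha : G.Adj (vtx i) d.toProd.2 := by rw [e]; exact d.adj
  obtain ⟨n, n1, n2⟩ := ((ht.eventually_gt_atTop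
    (time i + pass ω (typ i) (vtx i) d.toProd.2)).and (eventually_gt_atTop i)).exists
  have := h.first n (by omega) i n2 _ ha (fun j _ e' => d2 ⟨j, e'⟩)
  linarith

lemma Evolution.shield (h : Evolution G o ω vtx time typ) (Q : V → Prop) (ho : ¬ Q o)
    (hq : ∀ u v, G.Adj u v → ¬ Q u → Q v → (ω.1 u = true ∧ u ≠ o) ∨ ω.1 v = true) :
    ∀ n, typ n = false → ¬ Q (vtx n) := by
  have hs : ∀ n, typ n = false → vtx n = o ∨ ω.1 (vtx n) = false := by
    intro n hn
    rcases Nat.eq_zero_or_pos n with rfl | h0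
    · exact Or.inl h.start.1
    · obtain ⟨-, i, -, -, -, e⟩ := h.step n h0
      rw [hn] at e
      right
      cases h1 : ω.1 (vtx n)
      · rfl
      · rw [h1] at e; simp at e
  intro n
  induction n using Nat.strong_induction_on with
  | _ n ih =>
    intro hn hQ
    rcases Nat.eq_zero_or_pos n with rfl | h0
    · rw [h.start.1] at hQ; exact ho hQ
    · obtain ⟨-, i, hi, a, -, e⟩ := h.step n h0
      rw [hn] at e
      have e' := e.symm
      rw [Bool.or_eq_false_iff] at e'
      rcases hq _ _ a (ih i hi e'.2) hQ with ⟨b, c⟩ | b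
      · rcases hs i e'.2 with d | d
        · exact c d
        · rw [d] at b; exact absurd b (by simp)
      · rw [e'.1] at b; exact absurd b (by simp)

end Pool.Agent.H973Z.FPP
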