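import Mathlib
import Pool.Agent.H973Z.FPP.Defs

set_option autoImplicit false

namespace Pool.Agent.H973Z.FPP

abbrev VV : Type := (ℕ × ℕ) × (ℕ × ℕ)

def kk (n : ℕ) : ℕ × ℕ := Nat.unpair (Nat.unpair n).1

lemma kk_le (n : ℕ) : (kk n).1 + (kk n).2 ≤ n :=
  (Nat.unpair_add_le _).trans (Nat.unpair_left_le n)

lemma kk_surj (i : ℕ × ℕ) (m : ℕ) : ∃ n, m ≤ n ∧ kk n = i :=
  ⟨Nat.pair (Nat.pair i.1 i.2) m, Nat.right_le_pair _ _, by simp [kk]⟩

inductive rr : VV → VV → Prop
  | h (i : ℕ × ℕ) (x y : ℕ) : rr (i, (x, y)) (i, (x + 1, y))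
  | v (i : ℕ × ℕ) (x y : ℕ) : rr (i, (x, y)) (i, (x, y + 1))
  | b (a b : ℕ) : rr ((a, b + 1), (0, 0)) ((a + 1, b), (0, 0))
  | s (n : ℕ) : rr (kk n, (n, 0)) ((0, n), (0, 0))
  | e (n : ℕ) : rr ((n, 0), (0, 0)) ((0, 0), (0, n))

def GG : SimpleGraph VV := SimpleGraph.fromRel rr

def oo : VV := ((0, 0), (0, 0))

lemma adj_iff {u v : VV} : GG.Adj u v ↔ u ≠ v ∧ (rr u v ∨ rr v u) := SimpleGraph.fromRel_adj _ _ _

def nb (u : VV) (j : Fin 10) : VV :=
  match j with
  | 0 => (u.1, (u.2.1 + 1, u.2.2))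
  | 1 => (u.1, (u.2.1 - 1, u.2.2))
  | 2 => (u.1, (u.2.1, u.2.2 + 1))
  | 3 => (u.1, (u.2.1, u.2.2 - 1))
  | 4 => ((u.1.1 + 1, u.1.2 - 1), (0, 0))
  | 5 => ((u.1.1 - 1, u.1.2 + 1), (0, 0))
  | 6 => ((0, u.2.1), (0, 0))
  | 7 => (kk u.1.2, (u.1.2, 0))
  | 8 => ((0, 0), (0, u.1.1))
  | 9 => ((u.2.2, 0), (0, 0))

lemma adj_nb {u v : VV} (h : GG.Adj u v) : ∃ j, nb u j = v := by
  rcases (adj_iff.mp h).2 with h | h
  · cases h with
    | h i x y => exact ⟨0, rfl⟩
    | v i x y => exact ⟨2, rfl⟩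
    | b a b => exact ⟨4, by simp [nb]⟩
    | s n => exact ⟨6, rfl⟩
    | e n => exact ⟨8, rfl⟩
  · cases h with
    | h i x y => exact ⟨1, by simp [nb]⟩
    | v i x y => exact ⟨3, by simp [nb]⟩
    | b a b => exact ⟨5, by simp [nb]⟩
    | s n => exact ⟨7, rfl⟩
    | e n => exact ⟨9, rfl⟩

lemma nbr_sub (u : VV) : GG.neighborSet u ⊆ Set.range (nb u) := fun _ h => adj_nb h

lemma nbr_fin (u : VV) : (GG.neighborSet u).Finite := (Set.finite_range _).subset (nbr_sub u)

lemma nbr_card (u : VV) : (GG.neighborSet u).ncard ≤ 10 := by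
  refine (Set.ncard_le_ncard (nbr_sub u) (Set.finite_range _)).trans ?_
  rw [← Set.image_univ]
  refine (Set.ncard_image_le Set.finite_univ).trans ?_
  simp [Set.ncard_univ]

/-- reachability inside `W` -/
def RW (W : Set VV) (u v : VV) : Prop :=
  ∃ (hu : u ∈ W) (hv : v ∈ W), (GG.induce W).Reachable ⟨u, hu⟩ ⟨v, hv⟩

lemma RW.refl {W : Set VV} {u : VV} (hu : u ∈ W) : RW W u u := ⟨hu, hu, .refl _⟩

lemma RW.symm {W : Set VV} {u v : VV} (h : RW W u v) : RW W v u := by
  obtain ⟨a, b, c⟩ := h; exact ⟨b, a, c.symm⟩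

lemma RW.trans {W : Set VV} {u v w : VV} (h : RW W u v) (h' : RW W v w) : RW W u w := by
  obtain ⟨a, b, c⟩ := h
  obtain ⟨a', b', c'⟩ := h'
  exact ⟨a, b', c.trans c'⟩

lemma RW.step {W : Set VV} {u v : VV} (h : rr u v) (hu : u ∈ W) (hv : v ∈ W) : RW W u v := by
  by_cases e : u = v
  · subst e; exact RW.refl hu
  · refine ⟨hu, hv, SimpleGraph.Adj.reachable ?_⟩
    exact adj_iff.mpr ⟨e, Or.inl h⟩

lemma RW.conn {W : Set VV} {z : VV} (hz : z ∈ W) (h : ∀ v ∈ W, RW W v z) :
    (GG.induce W).Connected := by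
  haveI : Nonempty W := ⟨⟨z, hz⟩⟩
  refine ⟨fun u v => ?_⟩
  obtain ⟨a, b, c⟩ := (h u.1 u.2).trans (h v.1 v.2).symm
  exact c

def UpClosed (W : Set VV) : Prop :=
  ∀ i x y, (i, (x, y)) ∈ W → (i, (x + 1, y)) ∈ W ∧ (i, (x, y + 1)) ∈ W

lemma RW.up {W : Set VV} (hW : UpClosed W) (i : ℕ × ℕ) (x y : ℕ) (h : (i, (x, y)) ∈ W)
    (a b : ℕ) : RW W (i, (x, y)) (i, (x + a, y + b)) := by
  have h1 : ∀ a, RW W (i, (x, y)) (i, (x + a, y)) := by
    intro a
    induction a with
    | zero => exact RW.refl h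
    | succ a ih =>
      have := ih.2.1
      exact ih.trans (RW.step (rr.h i (x + a) y) this (hW _ _ _ this).1)
  induction b with
  | zero => exact h1 a
  | succ b ih =>
    have := ih.2.1
    exact ih.trans (RW.step (rr.v i (x + a) (y + b)) this (hW _ _ _ this).2)

lemma RW.fin {W : Set VV} (hW : UpClosed W) (i : ℕ × ℕ) (p q : ℕ × ℕ) (hp : (i, p) ∈ W)
    (hq : (i, q) ∈ W) : RW W (i, p) (i, q) := by
  have a := RW.up hW i p.1 p.2 hp q.1 q.2
  have b := RW.up hW i q.1 q.2 hq p.1 p.2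
  rw [Nat.add_comm q.1, Nat.add_comm q.2] at b
  exact a.trans b.symm

def ph (v : VV) : ℕ := max (v.2.1 + v.2.2) (v.1.1 + v.1.2)

def WW (m : ℕ) : Set VV := {v | m ≤ ph v}

lemma WW_up (m : ℕ) : UpClosed (WW m) := by
  intro i x y h
  simp only [WW, ph, Set.mem_setOf_eq] at h ⊢
  omega

lemma block (m a b : ℕ) (h : m ≤ a + b) : RW (WW m) ((a, b), (0, 0)) ((0, 0), (0, m)) := by
  induction b generalizing a with
  | zero =>
    have h1 : (((a, 0), (0, 0)) : VV) ∈ WW m := by simp only [WW, ph, Set.mem_setOf_eq]; omega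
    have h2 : (((0, 0), (0, a)) : VV) ∈ WW m := by simp only [WW, ph, Set.mem_setOf_eq]; omega
    have h3 : (((0, 0), (0, m)) : VV) ∈ WW m := by simp only [WW, ph, Set.mem_setOf_eq]; omega
    exact (RW.step (rr.e a) h1 h2).trans (RW.fin (WW_up m) _ _ _ h2 h3)
  | succ b ih =>
    have h1 : (((a, b + 1), (0, 0)) : VV) ∈ WW m := by simp only [WW, ph, Set.mem_setOf_eq]; omega
    have h2 : (((a + 1, b), (0, 0)) : VV) ∈ WW m := by simp only [WW, ph, Set.mem_setOf_eq]; omega
    exact (RW.step (rr.b a b) h1 h2).trans (ih (a + 1) (by omega))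

lemma WW_conn (m : ℕ) : (GG.induce (WW m)).Connected := by
  have h3 : (((0, 0), (0, m)) : VV) ∈ WW m := by simp only [WW, ph, Set.mem_setOf_eq]; omega
  refine RW.conn h3 ?_
  rintro ⟨i, p⟩ hv
  obtain ⟨n, hn, hk⟩ := kk_surj i m
  have h1 : ((i, (n, 0)) : VV) ∈ WW m := by simp only [WW, ph, Set.mem_setOf_eq]; omega
  have h2 : (((0, n), (0, 0)) : VV) ∈ WW m := by simp only [WW, ph, Set.mem_setOf_eq]; omega
  refine (RW.fin (WW_up m) i p (n, 0) hv h1).trans (RW.trans ?_ (block m 0 n (by omega)))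
  subst hk
  exact RW.step (rr.s n) h1 h2

lemma GG_conn : GG.Connected := by
  have h := WW_conn 0
  refine ⟨fun u v => ?_⟩
  have := h.preconnected ⟨u, Nat.zero_le _⟩ ⟨v, Nat.zero_le _⟩
  exact this.map (SimpleGraph.Embedding.induce (WW 0)).toHom

lemma level_sub (n : ℕ) : {v : VV | ph v ≤ n} ⊆
    ↑((Finset.range (n + 1) ×ˢ Finset.range (n + 1)) ×ˢ
      (Finset.range (n + 1) ×ˢ Finset.range (n + 1))) := by
  rintro ⟨⟨a, b⟩, ⟨x, y⟩⟩ h
  simp only [ph, Set.mem_setOf_eq] at h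
  simp only [Finset.coe_product, Finset.coe_range, Set.mem_prod, Set.mem_Iio]
  omega

lemma oneEnded : OneEnded GG := by
  intro K
  refine ⟨WW (K.sup ph + 1), ?_, ?_, WW_conn _⟩
  · refine (Finset.finite_toSet _).subset (Set.Subset.trans ?_ (level_sub (K.sup ph)))
    intro v hv
    simp only [WW, Set.mem_compl_iff, Set.mem_setOf_eq] at hv ⊢
    omega
  · intro v hv
    have := Finset.le_sup (f := ph) hv
    simp only [WW, Set.mem_setOf_eq]
    omega

lemma ph_rr {u v : VV} (h : rr u v) : ph v ≤ ph u + 1 ∧ ph u ≤ ph v + 1 := by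
  cases h with
  | h i x y => simp only [ph]; omega
  | v i x y => simp only [ph]; omega
  | b a b => simp only [ph]; omega
  | s n => have := kk_le n; simp only [ph]; omega
  | e n => simp only [ph]; omega

lemma ph_walk {u v : VV} (p : GG.Walk u v) : ph v ≤ ph u + p.length := by
  induction p with
  | nil => simp
  | cons h p ih =>
    have := (adj_iff.mp h).2
    rcases this with r | r
    · have := ph_rr r; simp only [SimpleGraph.Walk.length_cons]; omega
    · have := ph_rr r; simp only [SimpleGraph.Walk.length_cons]; omega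

lemma polyGrowth : PolyGrowth GG oo := by
  refine ⟨16, 4, fun n hn => ?_⟩
  have hs : {v | GG.edist oo v ≤ n} ⊆ {v : VV | ph v ≤ n} := by
    intro v hv
    obtain ⟨p, hp⟩ := (GG_conn.preconnected oo v).exists_walk_length_eq_edist
    have h1 := ph_walk p
    simp only [Set.mem_setOf_eq] at hv ⊢
    rw [← hp] at hv
    have h2 : p.length ≤ n := by exact_mod_cast hv
    have h3 : ph oo = 0 := rfl
    omega
  have hs' := hs.trans (level_sub n)
  refine ⟨(Finset.finite_toSet _).subset hs', ?_⟩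
  refine (Set.ncard_le_ncard hs' (Finset.finite_toSet _)).trans ?_
  rw [Set.ncard_coe_finset]
  simp only [Finset.card_product, Finset.card_range]
  have : n + 1 ≤ 2 * n := by omega
  calc (n + 1) * (n + 1) * ((n + 1) * (n + 1)) = (n + 1) ^ 4 := by ring
    _ ≤ (2 * n) ^ 4 := Nat.pow_le_pow_left this 4
    _ = 16 * n ^ 4 := by ring

lemma isoperimetric : Isoperimetric GG 2 := by
  classical
  refine ⟨1, one_pos, fun S => ?_⟩
  let B : Finset VV := S.filter (fun v => ∃ w, w ∉ S ∧ GG.Adj v w)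
  have hB : {v | v ∈ S ∧ ∃ w, w ∉ S ∧ GG.Adj v w} = ↑B := by ext v; simp [B]
  rw [hB, Set.ncard_coe_finset]
  let f : VV → (ℕ × ℕ) × ℕ := fun v => (v.1, v.2.1)
  let g : VV → (ℕ × ℕ) × ℕ := fun v => (v.1, v.2.2)
  have hf : S.image f ⊆ B.image f := by
    intro c hc
    obtain ⟨v, hv, rfl⟩ := Finset.mem_image.mp hc
    obtain ⟨w, hw, hmax⟩ := Finset.exists_max_image (S.filter (fun w => f w = f v))
      (fun w => w.2.2) ⟨v, by simp [hv]⟩
    rw [Finset.mem_filter] at hw
    refine Finset.mem_image.mpr ⟨w, Finset.mem_filter.mpr ⟨hw.1, (w.1, (w.2.1, w.2.2 + 1)), ?_, ?_⟩,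
      hw.2⟩
    · intro hS
      have := hmax _ (Finset.mem_filter.mpr ⟨hS, hw.2⟩)
      simp at this
    · refine adj_iff.mpr ⟨?_, Or.inl (rr.v w.1 w.2.1 w.2.2)⟩
      intro e
      have := congrArg (fun z : VV => z.2.2) e
      simp at this
  have hg : S.image g ⊆ B.image g := by
    intro c hc
    obtain ⟨v, hv, rfl⟩ := Finset.mem_image.mp hc
    obtain ⟨w, hw, hmax⟩ := Finset.exists_max_image (S.filter (fun w => g w = g v))
      (fun w => w.2.1) ⟨v, by simp [hv]⟩
    rw [Finset.mem_filter] at hw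
    refine Finset.mem_image.mpr ⟨w, Finset.mem_filter.mpr ⟨hw.1, (w.1, (w.2.1 + 1, w.2.2)), ?_, ?_⟩,
      hw.2⟩
    · intro hS
      have := hmax _ (Finset.mem_filter.mpr ⟨hS, hw.2⟩)
      simp at this
    · refine adj_iff.mpr ⟨?_, Or.inl (rr.h w.1 w.2.1 w.2.2)⟩
      intro e
      have := congrArg (fun z : VV => z.2.1) e
      simp at this
  have h1 : S.card ≤ (S.image f ×ˢ S.image g).card := by
    apply Finset.card_le_card_of_injOn (fun v => (f v, g v))
    · intro v hv
      simp only [Finset.coe_product, Set.mem_prod, Finset.mem_coe]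
      exact ⟨Finset.mem_image_of_mem _ hv, Finset.mem_image_of_mem _ hv⟩
    · rintro ⟨i, x, y⟩ - ⟨i', x', y'⟩ - e
      simp only [f, g, Prod.mk.injEq] at e ⊢
      tauto
  have h2 : S.card ≤ B.card * B.card := by
    rw [Finset.card_product] at h1
    exact h1.trans (Nat.mul_le_mul ((Finset.card_le_card hf).trans Finset.card_image_le)
      ((Finset.card_le_card hg).trans Finset.card_image_le))
  have e : ((2 : ℝ) - 1) / 2 = 1 / 2 := by norm_num
  rw [e, one_mul, ← Real.sqrt_eq_rpow]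
  apply Real.sqrt_le_iff.mpr
  refine ⟨by positivity, ?_⟩
  rw [sq]
  exact_mod_cast h2

/-- protected fins -/
inductive Prot (sd : VV → Bool) (κ : ℕ × ℕ) : ℕ × ℕ → Prop
  | base : Prot sd κ κ
  | ext (a b : ℕ) : Prot sd κ (kk (a + b)) →
      (∀ a' b', a' + b' = a + b → a' ≤ a → sd ((a', b'), (0, 0)) = false) → Prot sd κ (a, b)

lemma Prot.le {sd : VV → Bool} {κ i : ℕ × ℕ} (h : Prot sd κ i) : κ.1 + κ.2 ≤ i.1 + i.2 := by
  induction h with
  | base => exact le_rfl
  | ext a b _ _ ih => exact ih.trans (kk_le _)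

lemma Prot.cases' {sd : VV → Bool} {κ : ℕ × ℕ} {a b : ℕ} (h : Prot sd κ (a, b)) :
    (a, b) = κ ∨ (Prot sd κ (kk (a + b)) ∧
      ∀ a' b', a' + b' = a + b → a' ≤ a → sd ((a', b'), (0, 0)) = false) := by
  generalize e : (a, b) = i at h
  cases h with
  | base => exact Or.inl rfl
  | ext a' b' h1 h2 =>
    obtain ⟨rfl, rfl⟩ := Prod.mk.inj e
    exact Or.inr ⟨h1, h2⟩

lemma cross {sd : VV → Bool} {κ : ℕ × ℕ} (h0 : 1 ≤ κ.1 + κ.2) (hκ : sd (κ, (0, 0)) = true)
    (hb : ∀ n, κ.1 + κ.2 ≤ n → ∃ a b, a + b = n ∧ sd ((a, b), (0, 0)) = true)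
    {u v : VV} (h : GG.Adj u v) (hu : ¬ Prot sd κ u.1) (hv : Prot sd κ v.1) :
    (sd u = true ∧ u ≠ oo) ∨ sd v = true := by
  rcases (adj_iff.mp h).2 with r | r
  · cases r with
    | h i x y => exact absurd hv hu
    | v i x y => exact absurd hv hu
    | b a b =>
      rcases hv.cases' with e | ⟨p, q⟩
      · right; rw [← e] at hκ; exact hκ
      · exfalso
        apply hu
        have e : a + 1 + b = a + (b + 1) := by omega
        rw [e] at p q
        exact Prot.ext a (b + 1) p (fun a' b' h1 h2 => q a' b' h1 (by omega))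
    | s n =>
      rcases hv.cases' with e | ⟨p, q⟩
      · right; rw [← e] at hκ; exact hκ
      · exfalso
        apply hu
        simpa using p
    | e n =>
      have := hv.le
      simp at this
      omega
  · cases r with
    | h i x y => exact absurd hv hu
    | v i x y => exact absurd hv hu
    | b a b =>
      rcases hv.cases' with e | ⟨p, q⟩
      · right; rw [← e] at hκ; exact hκ
      · left
        refine ⟨?_, by simp [oo]⟩
        by_contra hs
        apply hu
        have e : a + (b + 1) = a + 1 + b := by omega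
        rw [e] at p q
        refine Prot.ext (a + 1) b p (fun a' b' h1 h2 => ?_)
        rcases Nat.lt_or_ge a a' with h3 | h3
        · obtain rfl : a' = a + 1 := by omega
          obtain rfl : b' = b := by omega
          simpa using hs
        · exact q a' b' h1 h3
    | s n =>
      left
      have hl := hv.le
      have hk := kk_le n
      simp only at hl
      refine ⟨?_, ?_⟩
      · by_contra hs
        apply hu
        refine Prot.ext 0 n (by simpa using hv) (fun a' b' h1 h2 => ?_)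
        obtain rfl : a' = 0 := by omega
        obtain rfl : b' = n := by omega
        simpa using hs
      · intro e
        have := congrArg (fun z : VV => z.1.2) e
        simp only [oo] at this
        omega
    | e n =>
      rcases hv.cases' with e | ⟨p, q⟩
      · right; rw [← e] at hκ; exact hκ
      · exfalso
        have hl := hv.le
        obtain ⟨a, b, h1, h2⟩ := hb (n + 0) hl
        rw [q a b h1 (by omega)] at h2
        exact absurd h2 (by simp)

lemma fin_survives (κ : ℕ × ℕ) (A : Set VV) (h : ∀ p, (κ, p) ∈ A) : Survives GG A := by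
  refine ⟨{v | v.1 = κ}, ?_, ?_, ?_⟩
  · rintro ⟨i, p⟩ e
    obtain rfl : i = κ := e
    exact h p
  · apply Set.infinite_of_injective_forall_mem (f := fun x : ℕ => ((κ, (x, 0)) : VV))
    · intro x y e
      simpa using e
    · intro x; rfl
  · have hW : UpClosed {v | v.1 = κ} := fun i x y h => ⟨h, h⟩
    refine RW.conn (z := (κ, (0, 0))) rfl ?_
    rintro ⟨i, p⟩ e
    obtain rfl : i = κ := e
    exact RW.fin hW i p (0, 0) rfl rfl

end Pool.Agent.H973Z.FPP
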