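import Mathlib
import Pool.Agent.H973Z.FPP.Graph
import Pool.Agent.H973Z.FPP.Det

set_option autoImplicit false

open MeasureTheory ProbabilityTheory Filter Topology
open scoped ENNReal

namespace Pool.Agent.H973Z.FPP

lemma bern_prob {mu : ℝ} (h0 : 0 < mu) (h1 : mu < 1) : IsProbabilityMeasure (bern mu) := by
  constructor
  simp only [bern, Measure.add_apply, Measure.smul_apply, measure_univ, smul_eq_mul, mul_one]
  rw [← ENNReal.ofReal_add h0.le (by linarith)]
  simp

lemma bern_false (mu : ℝ) : bern mu {false} = ENNReal.ofReal (1 - mu) := by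
  simp [bern]

lemma seeds {mu : ℝ} (h0 : 0 < mu) (h1 : mu < 1) :
    ∀ᵐ sd ∂(Measure.infinitePi fun _ : VV => bern mu),
      ∃ N, ∀ n, N ≤ n → ∃ a b, a + b = n ∧ sd ((a, b), (0, 0)) = true := by
  classical
  have := bern_prob h0 h1
  let F : ℕ → Finset VV := fun n => (Finset.range (n + 1)).image (fun a => ((a, n - a), (0, 0)))
  let B : ℕ → Set (VV → Bool) := fun n => Set.pi (F n) (fun _ => {false})
  have hB : ∀ n, (Measure.infinitePi fun _ : VV => bern mu) (B n) =
      ENNReal.ofReal (1 - mu) ^ (n + 1) := by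
    intro n
    rw [Measure.infinitePi_pi _ (fun _ _ => measurableSet_singleton _), Finset.prod_const,
      bern_false, Finset.card_image_of_injective _
        (fun a b e => (Prod.mk.inj (Prod.mk.inj e).1).1), Finset.card_range]
  have hs : ∑' n, (Measure.infinitePi fun _ : VV => bern mu) (B n) ≠ ∞ := by
    simp only [hB, pow_succ]
    rw [ENNReal.tsum_mul_right, ENNReal.tsum_geometric]
    apply ENNReal.mul_ne_top _ ENNReal.ofReal_ne_top
    rw [ENNReal.inv_ne_top]
    have : ENNReal.ofReal (1 - mu) < 1 := by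
      rw [ENNReal.ofReal_lt_one]; linarith
    exact (tsub_pos_of_lt this).ne'
  filter_upwards [ae_eventually_notMem hs] with sd hsd
  obtain ⟨N, hN⟩ := eventually_atTop.mp hsd
  refine ⟨N, fun n hn => ?_⟩
  by_contra hc
  push Not at hc
  apply hN n hn
  intro v hv
  obtain ⟨a, hab, rfl⟩ := Finset.mem_image.mp hv
  have := hc a (n - a) (by have := Finset.mem_range.mp hab; omega)
  simpa using this

lemma exp_Iic {r : ℝ} (hr : 0 < r) {x : ℝ} (hx : 0 ≤ x) :
    expMeasure r (Set.Iic x) ≤ ENNReal.ofReal (r * x) := by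
  have := isProbabilityMeasure_expMeasure hr
  rw [← ofReal_cdf, cdf_expMeasure_eq hr, if_pos hx]
  apply ENNReal.ofReal_le_ofReal
  have := Real.add_one_le_exp (-(r * x))
  linarith

lemma pair_le {lam : ℝ} (hl : 0 < lam) {x : ℝ} (hx : 0 ≤ x) :
    ((expMeasure 1).prod (expMeasure lam)) {q : ℝ × ℝ | q.1 ≤ x ∨ q.2 ≤ x} ≤
      ENNReal.ofReal ((1 + lam) * x) := by
  have := isProbabilityMeasure_expMeasure hl
  have := isProbabilityMeasure_expMeasure one_pos
  have e : {q : ℝ × ℝ | q.1 ≤ x ∨ q.2 ≤ x} = Set.Iic x ×ˢ Set.univ ∪ Set.univ ×ˢ Set.Iic x := by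
    ext q; simp
  rw [e]
  refine (measure_union_le _ _).trans ?_
  rw [Measure.prod_prod, Measure.prod_prod, measure_univ, measure_univ, mul_one, one_mul,
    add_mul, ENNReal.ofReal_add (by positivity) (by positivity)]
  exact add_le_add (exp_Iic one_pos hx) (exp_Iic hl hx)

def pth (v : VV) (c : ℕ → Fin 10) : ℕ → VV
  | 0 => v
  | i + 1 => nb (pth v c i) (c i)

lemma clusters (ν : Measure (ℝ × ℝ)) [IsProbabilityMeasure ν] (A : Set (ℝ × ℝ))
    (hA : MeasurableSet A) (hν : ν A ≤ 1 / 20) :
    ∀ᵐ w ∂(Measure.infinitePi fun _ : Sym2 VV => ν),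
      ∀ v, {u | (fastG GG (fun e => w e ∈ A)).Reachable v u}.Finite := by
  classical
  rw [ae_all_iff]
  intro v
  let ext : (n : ℕ) → (Fin n → Fin 10) → ℕ → Fin 10 := fun n c i => if h : i < n then c ⟨i, h⟩ else 0
  let ed : (n : ℕ) → (Fin n → Fin 10) → ℕ → Sym2 VV :=
    fun n c i => s(pth v (ext n c) i, pth v (ext n c) (i + 1))
  let E : (n : ℕ) → (Fin n → Fin 10) → Set (Sym2 VV → ℝ × ℝ) := fun n c =>
    if Set.InjOn (ed n c) (Finset.range n) then
      Set.pi ((Finset.range n).image (ed n c)) (fun _ => A) else ∅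
  have hE : ∀ n c, (Measure.infinitePi fun _ : Sym2 VV => ν) (E n c) ≤ (1 / 20) ^ n := by
    intro n c
    simp only [E]
    split_ifs with h
    · rw [Measure.infinitePi_pi _ (fun _ _ => hA), Finset.prod_const, Finset.card_image_of_injOn h,
        Finset.card_range]
      exact pow_le_pow_left' hν n
    · simp
  have hU : ∀ n, (Measure.infinitePi fun _ : Sym2 VV => ν) (⋃ c, E n c) ≤ (1 / 2) ^ n := by
    intro n
    refine (measure_iUnion_fintype_le _ _).trans ?_
    refine (Finset.sum_le_sum (fun c _ => hE n c)).trans ?_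
    rw [Finset.sum_const, Finset.card_univ, Fintype.card_fun, Fintype.card_fin, Fintype.card_fin,
      nsmul_eq_mul, Nat.cast_pow, ← mul_pow]
    apply pow_le_pow_left'
    have : ((10 : ℕ) : ℝ≥0∞) * (1 / 20) = 1 / 2 := by
      have e : (20 : ℝ≥0∞) = 10 * 2 := by norm_num
      rw [e, one_div, ENNReal.mul_inv (by simp) (by simp), ← mul_assoc]
      simp only [Nat.cast_ofNat]
      rw [ENNReal.mul_inv_cancel (by simp) (by simp)]
      simp
    exact this.le
  have hs : ∑' n, (Measure.infinitePi fun _ : Sym2 VV => ν) (⋃ c, E n c) ≠ ∞ := by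
    refine ne_top_of_le_ne_top ?_ (ENNReal.tsum_le_tsum hU)
    rw [ENNReal.tsum_geometric, ENNReal.inv_ne_top]
    have : (1 / 2 : ℝ≥0∞) < 1 := by simp
    exact (tsub_pos_of_lt this).ne'
  filter_upwards [ae_eventually_notMem hs] with w hw
  obtain ⟨n, hn⟩ := hw.exists
  set H := fastG GG (fun e => w e ∈ A) with hH
  have hball : ∀ m : ℕ, {u | ∃ p : H.Walk v u, p.length ≤ m}.Finite := by
    intro m
    induction m with
    | zero =>
      refine (Set.finite_singleton v).subset ?_
      rintro u ⟨p, hp⟩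
      exact (SimpleGraph.Walk.eq_of_length_eq_zero (Nat.le_zero.mp hp)).symm
    | succ m ih =>
      refine (ih.union (ih.biUnion fun u _ => nbr_fin u)).subset ?_
      rintro u ⟨p, hp⟩
      rcases Nat.lt_or_ge m p.length with h | h
      · right
        have hne : ¬ p.Nil := by rw [SimpleGraph.Walk.not_nil_iff_lt_length]; omega
        simp only [Set.mem_iUnion]
        refine ⟨p.penultimate, ⟨p.dropLast, ?_⟩, (p.adj_penultimate hne).1⟩
        have := SimpleGraph.Walk.length_dropLast_add_one hne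
        omega
      · exact Or.inl ⟨p, h⟩
  refine (hball n).subset ?_
  intro u hu
  obtain ⟨p, hp⟩ := SimpleGraph.Reachable.exists_isPath hu
  refine ⟨p, ?_⟩
  by_contra hl
  have hl' : n < p.length := not_le.mp hl
  apply hn
  have hadj : ∀ i, i < n → H.Adj (p.getVert i) (p.getVert (i + 1)) :=
    fun i hi => p.adj_getVert_succ (by omega)
  have hc : ∀ i : Fin n, ∃ j, nb (p.getVert i) j = p.getVert (i + 1) :=
    fun i => adj_nb (hadj i i.2).1
  choose c hc using hc
  have hpth : ∀ i, i ≤ n → pth v (ext n c) i = p.getVert i := by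
    intro i
    induction i with
    | zero => intro _; simp [pth]
    | succ i ih =>
      intro hi
      have hi' : i < n := hi
      simp only [pth, ext, dif_pos hi', ih hi'.le]
      exact hc ⟨i, hi'⟩
  have hed : ∀ i, i < n → ed n c i = s(p.getVert i, p.getVert (i + 1)) := by
    intro i hi
    simp only [ed, hpth i hi.le, hpth (i + 1) hi]
  have hinj : Set.InjOn (ed n c) (Finset.range n) := by
    intro i hi j hj e
    have hi' : i < n := by simpa using hi
    have hj' : j < n := by simpa using hj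
    rw [hed i hi', hed j hj', Sym2.eq_iff] at e
    have g := hp.getVert_injOn
    rcases e with ⟨e1, -⟩ | ⟨e1, e2⟩
    · exact g (by simp only [Set.mem_ofPred_eq]; omega) (by simp only [Set.mem_ofPred_eq]; omega) e1
    · have a := g (by simp only [Set.mem_ofPred_eq]; omega)
        (by simp only [Set.mem_ofPred_eq]; omega) e1
      have b := g (by simp only [Set.mem_ofPred_eq]; omega)
        (by simp only [Set.mem_ofPred_eq]; omega) e2
      omega
  refine Set.mem_iUnion.mpr ⟨c, ?_⟩
  simp only [E, if_pos hinj]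
  intro e he
  obtain ⟨i, hi, rfl⟩ := Finset.mem_image.mp he
  have hi' : i < n := by simpa using hi
  rw [hed i hi']
  exact (hadj i hi').2

theorem main {lam mu : ℝ} (hl : 0 < lam) (h0 : 0 < mu) (h1 : mu < 1) :
    IsProbabilityMeasure (law VV lam mu) ∧ ∀ᵐ ω ∂(law VV lam mu),
      (∃ vtx time typ, Evolution GG oo ω vtx time typ) ∧
      ∀ vtx time typ, Evolution GG oo ω vtx time typ →
        Tendsto time atTop atTop ∧ Survives GG {v | ∃ n, vtx n = v ∧ typ n = true} := by
  have i1 := bern_prob h0 h1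
  have i2 := isProbabilityMeasure_expMeasure hl
  have i3 := isProbabilityMeasure_expMeasure one_pos
  refine ⟨by unfold law; infer_instance, ?_⟩
  set ν := (expMeasure 1).prod (expMeasure lam) with hν
  let δ : ℝ := 1 / (20 * (1 + lam))
  have hδ : 0 < δ := by positivity
  have mA : ∀ x : ℝ, MeasurableSet {q : ℝ × ℝ | q.1 ≤ x ∨ q.2 ≤ x} := fun x =>
    (measurableSet_le measurable_fst measurable_const).union
      (measurableSet_le measurable_snd measurable_const)
  have hA : ν {q : ℝ × ℝ | q.1 ≤ δ ∨ q.2 ≤ δ} ≤ 1 / 20 := by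
    refine (pair_le hl hδ.le).trans (le_of_eq ?_)
    have : (1 + lam) * δ = 1 / 20 := by simp only [δ]; field_simp
    rw [this, ENNReal.ofReal_div_of_pos (by norm_num)]
    simp
  have a1 := seeds h0 h1
  have a2 := clusters ν _ (mA δ) hA
  have a3 : ∀ᵐ w ∂(Measure.infinitePi fun _ : Sym2 VV => ν), ∀ e, 0 < (w e).1 ∧ 0 < (w e).2 := by
    rw [ae_all_iff]
    intro e
    have z : ν {q : ℝ × ℝ | q.1 ≤ 0 ∨ q.2 ≤ 0} = 0 := by
      have := pair_le hl (le_refl (0 : ℝ))
      simpa using this
    have b : ∀ᵐ q ∂ν, 0 < q.1 ∧ 0 < q.2 := by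
      rw [ae_iff]
      convert z using 2
      ext q
      simp only [Set.mem_ofPred_eq, not_and_or, not_lt]
    exact (measurePreserving_eval_infinitePi (fun _ : Sym2 VV => ν) e).quasiMeasurePreserving.ae b
  have b1 := (Measure.quasiMeasurePreserving_fst
    (μ := Measure.infinitePi fun _ : VV => bern mu)
    (ν := Measure.infinitePi fun _ : Sym2 VV => ν)).ae a1
  have b2 := (Measure.quasiMeasurePreserving_snd
    (μ := Measure.infinitePi fun _ : VV => bern mu)
    (ν := Measure.infinitePi fun _ : Sym2 VV => ν)).ae (a2.and a3)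
  unfold law
  filter_upwards [b1, b2] with ω ⟨N, hN⟩ ⟨c1, c2⟩
  refine ⟨exists_evolution GG_conn nbr_fin oo ω, fun vtx time typ h => ?_⟩
  have ht : Tendsto time atTop atTop := by
    refine h.tendsto nbr_fin hδ (fun e => ω.2 e ∈ {q : ℝ × ℝ | q.1 ≤ δ ∨ q.2 ≤ δ}) ?_ ?_ c1
    · intro ty u v
      cases ty
      · exact (c2 _).1.le
      · exact (c2 _).2.le
    · intro ty u v hf
      simp only [Set.mem_ofPred_eq, not_or, not_le] at hf
      cases ty
      · exact hf.1.le
      · exact hf.2.le
  refine ⟨ht, ?_⟩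
  obtain ⟨a, b, hab, hs⟩ := hN (N + 1) (by omega)
  have hsh := h.shield (fun v => Prot ω.1 (a, b) v.1) (by
      intro hp
      have := hp.le
      simp only [oo] at this
      omega)
    (fun u v huv hu hv => cross (by simp only; omega) hs
      (fun n hn => hN n (by simp only at hn; omega)) huv hu hv)
  refine fin_survives (a, b) _ (fun p => ?_)
  obtain ⟨n, hn⟩ := h.surj GG_conn ht ((a, b), p)
  refine ⟨n, hn, ?_⟩
  by_contra hc
  apply hsh n (by simpa using hc)
  rw [hn]
  exact Prot.base

end Pool.Agent.H973Z.FPP
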